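import Pool.Agent.R611.CO.A9

/-!
# 0-h-minimality is equivalent to 0-h^coars-minimality

The valued fields, `RV`, preparation, `IsValuedTheory` and `HMin` are defined in
`Pool.Agent.R611.HM.Def`, the language `L_c` and `HCoarsMin` in `Pool.Agent.R611.CO.Def`.
-/

set_option autoImplicit false

namespace Pool.Agent.Results.MP_f2b4e1_lc.ZeroCoarseEquivalence

open FirstOrder Pool.Agent.R611.HM Pool.Agent.R611.CO

universe u

/-- Let `T` be a theory of valued fields of equicharacteristic zero in a language `L` expanding the
language of valued fields. Then `T` is 0-h-minimal if and only if it is 0-h^coars-minimal. -/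
theorem result : ∀ (L : FirstOrder.Language.{u, u}) (sy : ValSymbols L) (T : L.Theory),
    IsValuedTheory sy T → (HMin sy T 0 ↔ HCoarsMin sy T 0) :=
  fun _ _ _ _ => ⟨coars_of_hMin, hMin_of_coars⟩

end Pool.Agent.Results.MP_f2b4e1_lc.ZeroCoarseEquivalence
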